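import Pool.Agent.Results.MP_3554b5_lc.PlacesOfHigherDimension
import Pool.Agent.T9h39.Ne10
import Pool.Agent.T9h43.MC.Main
import Pool.Agent.T9h43.MC.Tr
import Pool.Agent.T9h43.TV.Top

/-!
# Completions of NIP fields and rings of places

Let `K` be a field (a pure field, in the language of rings) which is NIP, or `NIP_n` for some `n`. Let
`P` be a place of `K` with values in a field `F` which is complete with respect to a nonarchimedean
absolute value, for instance the completion of `K` at an absolute value, or more generally the
completion of the residue field of a valuation ring of `K`; no valuation of `K` is assumed to be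
henselian or definable. Let `O` be the valuation ring of all elements of `K` which have absolute value
at most one in `F`. Suppose that `F` has dimension greater than one (some norm map `L → M` is not
surjective, where `M` is a finite separable extension of `F` and `L` is a finite separable extension of
`M`), or that the topology of `P` is definable (some bounded neighbourhood of zero is definable). Then:

* If the residue characteristic is `p > 0`, all finite extensions of `F` have degree prime to `p` (in
  particular all elements of `F` are `p`-th powers, so the value group is `p`-divisible and `F` is a
  perfectoid field, or a perfect field of characteristic `p`), or `F` has characteristic zero, the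
  absolute value of `F` is discrete, and the residue field of `F` is finite (so `F` is a finite
  extension of `ℚ_p`), or every element of a finite extension `E` of `F` which is integral over the
  unit ball of `F` is of the form `y ^ p - y` with `y` in `E`.
* `O` is definable (with parameters), or the value group of `F` is divisible and all finite extensions
  of `F` are unramified of degree prime to the residue characteristic: if `M ≠ E` are fields between
  `F` and a finite extension of `F`, then the residue field of `E` is larger than the residue field of
  `M`.

The second case of the last statement occurs, for example for the natural valuation of the real closed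
field `ℝ((t^ℚ))`. The first step also holds for NTP2 fields: if the value group of `F` is not divisible
by a prime number different from the residue characteristic, then `O` is definable.

Proof. If `F` has dimension greater than one, then by the starting result `PlacesOfHigherDimension`
the topology of `P` is definable: there is a definable bounded neighbourhood `U` of zero. Every finite
separable extension `E` of `F` is the completion of a finite extension `L` of `K` of the same degree,
and a suitable neighbourhood `W` of zero in `L` is definable from `U`; all elements of `W` are small in
`E`. If the residue field of `E` is infinite and the element `a` of the unit ball of `E` is not of the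
form `y ^ p - y`, then the explicit form of the theorem of Kaplan, Scanlon and Wagner (starting library
`Pool/Agent/N616/NH`) gives `u` in `E` such that for every subset `S` of `{0, …, N - 1}` there is `x`
such that `u ^ i * x` is of the form `y ^ p - y` for `i` outside `S`, and not near such an element for
`i` in `S`. If `F` is infinitely ramified and there are elements `a` of absolute value arbitrarily near
to one (and possibly larger than one) which are not of the form `y ^ p - y`, then we get such patterns
by an ultrapower of `E` and the coarsening of its valuation for which the infinitely ramified part is
infinitesimal. These patterns can be approximated in `L`, and the relation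
`∃ y, u * x - (y ^ p - y) ∈ W` is definable; so they contradict `NIP_n`. Hence in the infinitely
ramified case there is a `t` in `E` with `|t| < 1` such that all `a` with `|a| ≤ |t|⁻¹` are of the form
`y ^ p - y`. It follows that all elements of `E` are limits of `p`-th powers up to a constant factor
less than one, and, if `E` contains a primitive `p`-th root of unity `1 + l`, that all `1 + z` with
`|z| ≤ |t|⁻¹ |l| ^ p`, then all `1 + z` with `|z| < 1`, and then all elements of `E` are `p`-th powers.
By Kummer theory no finite extension of `F` has degree divisible by `p`. In characteristic `p` we get
that the finite extensions are perfect and closed under Artin-Schreier extensions.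

Let the value group of `F` not be `ℓ`-divisible, where `ℓ` is a prime number and a unit in `O`. If the
residue field of `F` has elements which are not `ℓ`-th powers, then it has an extension of degree `ℓ`,
and `O` is definable by the starting result `NonTameDefinable`. If all elements of the residue field
are `ℓ`-th powers, then by Hensel's lemma in `F` the set of the `ℓ`-th powers of `F` is the inverse
image of a proper subgroup of the value group, so it defines the valuation ring of `F`, and with `U` we
get a definition of `O`. If `ℓ` is the residue characteristic, then all finite extensions of `F` have
degree prime to `ℓ`, so all elements of `F` are `ℓ`-th powers, or `F` is discretely valued, and another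
prime number can be taken for `ℓ`. So `O` is definable unless the value group is divisible. In this
case `F` is not discretely valued, and all finite extensions have degree prime to the residue
characteristic. If `M ≠ E` had the same residue field, then, the value groups being equal, each element
`y ≠ 0` of `E` would have an approximation `a` in `M` with `|y - a| < |y|`; for `y` of trace zero over
`M` this contradicts `|a| = |tr (y - a)| ≤ |y - a|`.

Authors: helper43, with the help of helper39.
-/

set_option autoImplicit false

namespace Pool.Agent.Results.MP_3554b5_lc.CompletionsAndRings

open Pool.Agent.W882.Nip3 Pool.Agent.N616.NH Pool.Agent.N616.NV Pool.Agent.T9h39.Ne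

/-- Let `P` be a place of the field `K` with values in a complete field `F = P.F` with a
nonarchimedean absolute value. Suppose that `F` has dimension greater than one, or that the topology of
`P` is definable. Let `O` be the valuation ring of the elements of `K` of absolute value at most one
in `F`. Definable means: definable with parameters in the language of rings.

(1) If `K` is NIP, `NIP_n` for some `n`, or NTP2, and if the value group of `F` is not divisible by a
prime number `ℓ` which is a unit in `O`, then `O` is definable.

(2) Let `K` be NIP (the hypothesis of `S14569`) or `NIP_n` for some `n`.

(a) If `p` is a prime number whose absolute value in `F` is less than one, then every finite extension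
of `F` has degree prime to `p`, or `p ≠ 0` in `F`, the absolute value of `F` is discrete (there is a
largest absolute value less than one of nonzero elements), and the residue field of `F` is finite, or
for every finite extension `E` of `F` every element of `E` whose minimal polynomial over `F` has
coefficients of absolute value at most one is of the form `y ^ p - y` with `y ∈ E`.

(b) `O` is definable, or the value group of `F` is divisible and for every finite extension `E` of `F`:
the degree of `E` over `F` is prime to the residue characteristic, and for every field `M` with
`F ⊆ M ⊆ E`, `M ≠ E`, there is an element of `E` of absolute value one which has distance at least one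
to all elements of `M` (so the residue field of `E` is larger than that of `M`). -/
theorem result (K : Type) [Field K] [FirstOrder.Ring.CompatibleRing K] (P : Place K)
    (hult : ∀ a b : P.F, ‖a + b‖ ≤ max ‖a‖ ‖b‖)
    (hT : (∃ D : ℕ, ¬ DimLeOneUpTo P.F D) ∨ DefTop P)
    (O : ValuationSubring K) (hO : IsRingOf P O) :
    ((NIPField K ∨ (∃ n, NIPnField n K) ∨ NTP2Field K) → ∀ ℓ : ℕ, ℓ.Prime → ‖(ℓ : P.F)‖ = 1 →
      (∃ a : P.F, ∀ b : P.F, ‖b‖ ^ ℓ ≠ ‖a‖) → Dfb O) ∧
    ((NIPField K ∨ ∃ n, NIPnField n K) →
      (∀ p : ℕ, p.Prime → ‖(p : P.F)‖ < 1 →
        (∀ (M : Type) [Field M] [Algebra P.F M] [FiniteDimensional P.F M],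
          ¬ p ∣ Module.finrank P.F M) ∨
        ((p : P.F) ≠ 0 ∧ (∃ π : P.F, π ≠ 0 ∧ ‖π‖ < 1 ∧ ∀ x : P.F, ‖x‖ < 1 → ‖x‖ ≤ ‖π‖) ∧
          ((∃ S : Finset P.F, ∀ x : P.F, ‖x‖ ≤ 1 → ∃ s ∈ S, ‖x - s‖ < 1) ∨
            ∀ (E : Type) [Field E] [Algebra P.F E] [FiniteDimensional P.F E] (a : E),
              (∀ k, ‖(minpoly P.F a).coeff k‖ ≤ 1) → ∃ y : E, y ^ p - y = a))) ∧
      (Dfb O ∨
        ((∀ m : ℕ, m ≠ 0 → ∀ a : P.F, ∃ b : P.F, ‖b‖ ^ m = ‖a‖) ∧
          ∀ (E : Type) [Field E] [Algebra P.F E] [FiniteDimensional P.F E],
            ‖((Module.finrank P.F E : ℕ) : P.F)‖ = 1 ∧
            ∀ M : IntermediateField P.F E, M ≠ ⊤ →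
              ∃ y : E, spectralNorm P.F E y = 1 ∧ ∀ a ∈ M, 1 ≤ spectralNorm P.F E (y - a)))) := by
  have hul : IsUltrametricDist P.F :=
    IsUltrametricDist.isUltrametricDist_of_forall_norm_add_le_max_norm hult
  have htop : (NIPField K ∨ (∃ n, NIPnField n K) ∨ NTP2Field K) → DefTop P := by
    intro hK
    rcases hT with ⟨D, hD⟩ | h
    · obtain ⟨U, ε, hU, hε, hU1, hU2⟩ :=
        (Pool.Agent.Results.MP_3554b5_lc.PlacesOfHigherDimension.result K hK).1 P D hult hD
      exact ⟨U, ε, hU, hε, hU1, hU2⟩
    · exact h
  constructor
  · intro hK ℓ hℓ hℓ1 ⟨a, ha⟩
    obtain ⟨U, ε, hU, hε, hU1, hU2⟩ := htop hK
    exact Pool.Agent.T9h43.TV.dfb_of_not_divisible_top K hK P hult U hU ε hε hU1 hU2 O hO hℓ hℓ1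
      a ha
  · intro hK
    obtain ⟨n, hn⟩ : ∃ n, NIPnField n K := by
      rcases hK with h | h
      · exact ⟨1, nip_one h⟩
      · exact h
    obtain ⟨U, ε, hU, hε, hU1, hU2⟩ := htop (Or.inr (Or.inl ⟨n, hn⟩))
    refine ⟨fun p hp hp1 => Pool.Agent.T9h43.MC.main P.F hp hp1 fun E _ _ _ _ _ =>
      Pool.Agent.T9h43.MC.no_pat n hn P hult U hU ε hε hU1 hU2 hp E, ?_⟩
    rcases Pool.Agent.T9h43.TV.dfb_or_divisible_top K n hn P hult U hU ε hε hU1 hU2 O hO
      with h | hdiv
    · exact Or.inl h
    · exact Or.inr ⟨hdiv, fun E _ _ _ =>
        have hdeg := Pool.Agent.T9h43.TV.degree_top K n hn P hult U hU ε hε hU1 hU2 hdiv E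
        ⟨hdeg, fun M hM => Pool.Agent.T9h43.TV.unramified hdiv E hdeg M hM⟩⟩

end Pool.Agent.Results.MP_3554b5_lc.CompletionsAndRings
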