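import Pool.Agent.Results.MP_3554b5_lc.PlacesOfHigherDimension
import Pool.Agent.Results.MP_3554b5_lc.LocalPlaces
import Pool.Agent.T9h43.NF.Main

/-!
# Orderings of NIP fields are definable, or come from definable valuations

Let `K` be a field (a pure field, in the language of rings) which is NIP, or `NIP_n` for some `n`, or
NTP2.

(1) For every ordering of `K`, there is a nontrivial convex valuation ring which is definable with
parameters in the language of rings, or the ordering itself is definable in the language of rings
and `K` is dense in its real closure.

(2) In particular the ordering given by an embedding of `K` in the field of real numbers is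
definable.

(3) If `K` has no nontrivial definable valuation ring (henselian or not), then `K` has only finitely
many orderings (all of them definable by (1)).

The Shelah conjecture says that a formally real NIP field which is not real closed has a nontrivial
definable henselian valuation ring.

Proof. By the starting result `PlacesOfHigherDimension` there is a definable set `U` between
`[-1/2, 1/2]` and `(-2, 2)`. Suppose that some `c > 0` is not a limit of squares. If there is no
square between `c / 2` and `2 c` then the elements `z ≥ 1` such that there is no square between
`c / z` and `c z` are closed under products and sums, and those `x` with `|x|` below such a `z` form a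
convex subring; it is definable from `U` since it does not change when `|x|` is multiplied by `4`. If
there is one, then the elements `d` such that there is no square between `c / (1 + |d|)` and
`c (1 + |d|)` form a convex additive subgroup, which is definable from `U` for the same reason, and
its multipliers form a convex valuation ring. If all `c > 0` are limits of squares then the set of
the nonnegative elements is the closure of the set of squares and hence definable. If `K` is not
dense in its real closure `R`, choose an element `r` of `R` with positive distance to `K`, of minimal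
degree over `K`. Then the cut of `r` in `K` is definable by the sign of the minimal polynomial, since
the zeros of its derivative are limits of elements of `K`, and the elements `d` such that the cut is
invariant under the addition of `|d|` form a convex subgroup again. For (3) two orderings in which
the squares are dense in the nonnegative elements are equal if they have the same topology; the
starting result `LocalPlaces` gives two orderings with the same topology among any `N` of them.

Rolle's theorem for real closed fields is taken from `Pool/Agent/Helper716_Lang/RCPoly.lean`.
-/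

set_option autoImplicit false

namespace Pool.Agent.Results.MP_3554b5_lc.DefinableOrderings

open Pool.Agent.W882.Nip3 Pool.Agent.N616.NH Pool.Agent.N616.NV Pool.Agent.R614.NF

open Pool.Agent.T9h43.NF in
/-- The dichotomy for one ordering. -/
theorem one (K : Type) [Field K] [FirstOrder.Ring.CompatibleRing K]
    (hK : NIPField K ∨ (∃ n, NIPnField n K) ∨ NTP2Field K) [LinearOrder K]
    [IsStrictOrderedRing K] :
    (∃ A : ValuationSubring K, A ≠ ⊤ ∧ Dfb A ∧ ∀ x y : K, |x| ≤ |y| → y ∈ A → x ∈ A) ∨
    (DfS {x : K | 0 ≤ x} ∧ ∀ (R : Type) [Field R] [LinearOrder R] [IsStrictOrderedRing R]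
      [IsRealClosed R] [Algebra K R] [Algebra.IsAlgebraic K R], StrictMono (algebraMap K R) →
      ∀ a b : R, a < b → ∃ x : K, a < algebraMap K R x ∧ algebraMap K R x < b) := by
  obtain ⟨U, hU, hU1, hU2⟩ := (PlacesOfHigherDimension.result K hK).2.1
  exact dichotomy hU hU1 hU2

open Pool.Agent.T9h43.NF in
/-- Squares are dense if there is no definable valuation ring. -/
theorem squares (K : Type) [Field K] [FirstOrder.Ring.CompatibleRing K]
    (hK : NIPField K ∨ (∃ n, NIPnField n K) ∨ NTP2Field K) [LinearOrder K]
    [IsStrictOrderedRing K] (h : ∀ A : ValuationSubring K, Dfb A → A = ⊤) (c : K) (hc : 0 < c)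
    (e : K) (he : 0 < e) : ∃ y : K, |y ^ 2 - c| < e := by
  obtain ⟨U, hU, hU1, hU2⟩ := (PlacesOfHigherDimension.result K hK).2.1
  refine dense_squares hU hU1 hU2 ?_ c hc e he
  rintro ⟨A, hA, hD, -⟩
  exact hA (h A hD)

/-- Let `K` be a field which is NIP (the hypothesis of `S14569`), or `NIP_n` for some `n`, or NTP2.
Definable means: definable with parameters in the language of rings.

(1) For every ordering of `K` there is a convex valuation ring of `K` which is definable and not
`K`, or else the set of the nonnegative elements is definable and `K` is dense in its real closure
(in every real closed field which is an algebraic extension of `K`, with an ordering which extends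
that of `K`).

(2) For every embedding `e` of `K` in the field of real numbers the set of all `x` with `e x ≥ 0` is
definable.

(3) If `K` itself is the only definable valuation ring of `K`, then there is `N` such that among any
`N` orderings of `K` two are equal. -/
theorem result (K : Type) [Field K] [FirstOrder.Ring.CompatibleRing K]
    (hK : NIPField K ∨ (∃ n, NIPnField n K) ∨ NTP2Field K) :
    (∀ [LinearOrder K] [IsStrictOrderedRing K],
      (∃ A : ValuationSubring K, A ≠ ⊤ ∧ Dfb A ∧ ∀ x y : K, |x| ≤ |y| → y ∈ A → x ∈ A) ∨
      (DfS {x : K | 0 ≤ x} ∧ ∀ (R : Type) [Field R] [LinearOrder R] [IsStrictOrderedRing R]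
        [IsRealClosed R] [Algebra K R] [Algebra.IsAlgebraic K R], StrictMono (algebraMap K R) →
        ∀ a b : R, a < b → ∃ x : K, a < algebraMap K R x ∧ algebraMap K R x < b)) ∧
    (∀ e : K →+* ℝ, DfS {x : K | 0 ≤ e x}) ∧
    ((∀ A : ValuationSubring K, Dfb A → A = ⊤) → ∃ N : ℕ, ∀ o : Fin N → FieldOrder K,
      ∃ i j, i ≠ j ∧ ∀ x y : K, (o i).le x y ↔ (o j).le x y) := by
  refine ⟨one K hK, fun e => ?_, fun h => ?_⟩
  · let _ : LinearOrder K := LinearOrder.lift' e e.injective
    have hle : ∀ x y : K, x ≤ y ↔ e x ≤ e y := fun x y => Iff.rfl
    have hlt : ∀ x y : K, x < y ↔ e x < e y := fun x y => by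
      rw [lt_iff_le_not_ge, lt_iff_le_not_ge, hle, hle]
    have : IsStrictOrderedRing K :=
      { add_le_add_left := fun a b hab c => by
          rw [hle, map_add, map_add]
          exact add_le_add_left ((hle a b).1 hab) (e c)
        le_of_add_le_add_left := fun a b c hab => by
          rw [hle, map_add, map_add] at hab
          rw [hle]
          exact le_of_add_le_add_left hab
        zero_le_one := by
          rw [hle, map_zero, map_one]
          exact zero_le_one
        mul_lt_mul_of_pos_left := fun a ha b c hbc => by
          rw [hlt, map_zero] at ha
          rw [hlt] at hbc ⊢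
          rw [map_mul, map_mul]
          exact mul_lt_mul_of_pos_left hbc ha
        mul_lt_mul_of_pos_right := fun a ha b c hbc => by
          rw [hlt, map_zero] at ha
          rw [hlt] at hbc ⊢
          rw [map_mul, map_mul]
          exact mul_lt_mul_of_pos_right hbc ha }
    rcases one K hK with ⟨A, hA, -, hcv⟩ | ⟨h1, -⟩
    · exfalso
      apply hA
      rw [eq_top_iff]
      intro x _
      obtain ⟨n, hn⟩ := exists_nat_ge (e |x|)
      refine hcv x (n : K) ?_ (natCast_mem A n)
      have h2 : (0 : K) ≤ (n : K) := by
        rw [hle, map_zero, map_natCast]
        exact Nat.cast_nonneg n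
      rw [abs_of_nonneg h2, hle, map_natCast]
      exact hn
    · have e1 : {x : K | 0 ≤ e x} = {x : K | 0 ≤ x} := by
        ext x
        show 0 ≤ e x ↔ 0 ≤ x
        rw [hle, map_zero]
      rw [e1]
      exact h1
  · obtain ⟨N, hN⟩ := LocalPlaces.result K hK
    refine ⟨N, fun o => ?_⟩
    obtain ⟨-, -, -, h4⟩ := hN K rfl
    obtain ⟨i, j, hij, h5, h6⟩ := h4 o
    have key : ∀ i j, (∀ x : K, (o i).lt (-1) x → (o i).lt x 1 → (o j).lt (-2) x ∧ (o j).lt x 2) →
        ∀ x : K, (o i).le 0 x → (o j).le 0 x := by
      intro i j h7 x hx
      exact @Pool.Agent.T9h43.NF.pos_transfer K K _ (o i).toLinearOrder (o i).ord _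
        (o j).toLinearOrder (o j).ord (RingHom.id K)
        (@squares K _ _ hK (o i).toLinearOrder (o i).ord h) h7 x hx
    have hsub : ∀ i x y, (o i).le x y ↔ (o i).le 0 (y - x) := by
      intro i x y
      let _ := (o i).toLinearOrder
      have := (o i).ord
      exact (sub_nonneg (a := y) (b := x)).symm
    refine ⟨i, j, hij, fun x y => ?_⟩
    rw [hsub i, hsub j]
    exact ⟨key i j h5 _, key j i h6 _⟩

end Pool.Agent.Results.MP_3554b5_lc.DefinableOrderings
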