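import Pool.Agent.T9h39.Nf5

/-!
# Definable topologies of NIP fields come from definable valuation rings or definable orderings

Let `K` be a field (a pure field, in the language of rings) which is NIP, or `NIP_n` for some `n`, of
any characteristic, and let `O` be a valuation ring of `K` different from `K`, of any rank, not
necessarily definable or henselian. The topology of `O` is definable if some bounded neighbourhood of
zero is definable with parameters (then so are all balls of a basis, as multiples of it). We show:

(1) if the completion of `K` at `O`, or at a coarser place of rank one (possibly of the residue field
of a coarser valuation ring), has dimension greater than one then the topology of `O` is the topology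
of a definable valuation ring (henselian if `K` has positive characteristic), or the topology of an
ordering of `K` which is definable in the pure field and for which `K` is dense in its real closure;

(2) the same is true if the topology of `O` is definable, unless `K` is dense in its separable closure
for this topology. In positive characteristic the exception only occurs if `K` is separably closed.

Two valuation rings different from `K` have the same topology if and only if they are contained in a
common valuation ring different from `K`, and this is how the theorem is stated.

The Shelah conjecture implies that each field as in (2) is separably closed, or has a definable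
henselian valuation ring with the topology of `O`, or is real closed. For fields which are henselian
for the topology of `O` the result is a theorem of Jahnke and Koenigsmann (without NIP); here no
henselian property is assumed. For definable valuation rings `O` there is nothing to prove: the point is
that the ring is found from a definable neighbourhood of zero.

Proof. Let the topology of `O` be definable and let `K` not be dense in its separable closure. There are
a monic separable polynomial without small values, and hence a place `P` with values in a complete
nonarchimedean field `F` of rank one whose ring contains `O`, which has a definable bounded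
neighbourhood of zero and is not separably closed. If there are a prime number `q`, different from
the residue characteristic of `F`, and a finite extension `E` of `F`, not all of whose elements are
`q`-th powers, and which contains a `q`-th root of `-1`, then `E` is the completion of a finite
extension `L` of `K` and the closure `T` of the group of the `q`-th powers of `L` is definable over
`K`. The ring `A` of `L` given by `E` is compatible with `T`, that is `1 + m_A ⊆ T`. As in the proof of
the hand-in `DefinableTrichotomy`, the theory of the compatible valuation rings (Ware, Koenigsmann)
and the results on the completions of residue characteristic `q` of `NIP_n` fields give a definable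
valuation ring; we check here that it and `A` are contained in a common valuation ring different from
`L`. If the residue characteristic of `F` is `p > 0` such `q` and `E` exist by the structure theorem for
places of residue characteristic `p` of `NIP_n` fields (hand-in `CompletionsAndRings`). If there are no
such `q` and `E` then `F` has residue characteristic zero and is real closed. Then the set `T` of all `x`
which are squares at `P` after multiplication with a square of `K` is definable and closed under sums
and products. If `T` and `-T` cover `K` except for zero, `T` is the set of the positive elements of an
ordering for which the ring of `P` is convex, and we use the dichotomy of `DefinableOrderings`: `K` is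
dense in its real closure or there is a definable convex valuation ring. Otherwise the union of `T`
and `-T` is a proper subgroup of the multiplicative group, compatible with the ring of `P`, and gives a
definable valuation ring as above. In characteristic `p` the ring of `P` is henselian by Johnson's
argument for definable neighbourhoods (starting library `N616/NV`), and a henselian field which is
dense in its separable closure is separably closed.

The real closed case (`T9h43/TV/RealCase`) and the definable subgroups of finite extensions
(`T9h43/TV/Root`, `Ext`, `Rel`, `Rel2`) were formalised by helper43, the rest by helper39.
-/

set_option autoImplicit false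

namespace Pool.Agent.Results.MP_3554b5_lc.DefinableTopologies

open FirstOrder FirstOrder.Language FirstOrder.Ring Pool.Agent.W882.Nip3 Pool.Agent.N616.NH
open Pool.Agent.N616.NV Pool.Agent.T9h39.Nd Pool.Agent.T9h39.Ne

/-- The topology of the valuation ring `O` of `K` is the topology of a definable valuation ring, or of a
definable ordering. In detail: there are a definable valuation ring `A` of `K` and a valuation ring
`C ≠ K` which contains `A` and `O`, and `A` is henselian if `K` has positive characteristic; or there is an
ordering of `K` such that the set of the nonnegative elements is definable, `K` is dense in its real
closure (in every real closed field which is an algebraic extension of `K`, with an ordering which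
extends that of `K`), and `O` is contained in a convex valuation ring `C ≠ K`. -/
def FromDefinable {K : Type} [Field K] [CompatibleRing K] (O : ValuationSubring K) : Prop :=
  (∃ A C : ValuationSubring K, C ≠ ⊤ ∧ A ≤ C ∧ O ≤ C ∧ Dfb A ∧
    ∀ p : ℕ, p.Prime → CharP K p → HenselianLocalRing A) ∨
  ∃ (_ : LinearOrder K) (_ : IsStrictOrderedRing K), DfS {x : K | 0 ≤ x} ∧
    (∀ (R : Type) [Field R] [LinearOrder R] [IsStrictOrderedRing R] [IsRealClosed R]
      [Algebra K R] [Algebra.IsAlgebraic K R], StrictMono (algebraMap K R) →
      ∀ a b : R, a < b → ∃ x : K, a < algebraMap K R x ∧ algebraMap K R x < b) ∧
    ∃ C : ValuationSubring K, C ≠ ⊤ ∧ O ≤ C ∧ ∀ x y : K, |x| ≤ |y| → y ∈ C → x ∈ C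

/-- Let `K` be a field which is NIP (the hypothesis of `S14569`), or `NIP_n` for some `n`, and let `O` be
a valuation ring of `K` different from `K`. Definable means: definable with parameters in the language
of rings.

(1) Suppose that `O` is contained in the ring of a place `P` of `K` with values in a nonarchimedean
complete field `P.F` of dimension greater than one. Then the topology of `O` is the topology of a
definable valuation ring (henselian if `K` has positive characteristic), or of a definable ordering
for which `K` is dense in its real closure.

(2) Suppose that the topology of `O` is definable. Then the conclusion of (1) holds, or `K` is dense in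
its separable closure for the topology of `O`, and `K` is separably closed if it has positive
characteristic. -/
theorem result (K : Type) [Field K] [CompatibleRing K]
    (hK : NIPField K ∨ ∃ n, NIPnField n K) (O : ValuationSubring K) (hO : O ≠ ⊤) :
    ((∃ P : Place K, (∀ a b : P.F, ‖a + b‖ ≤ max ‖a‖ ‖b‖) ∧
      (∀ x ∈ O, ∃ h : x ∈ P.O, ‖P.res ⟨x, h⟩‖ ≤ 1) ∧ ∃ D : ℕ, ¬ DimLeOneUpTo P.F D) →
      FromDefinable O) ∧
    (DefinableTopology O → FromDefinable O ∨
      DenseInSepClosure O ∧ ∀ p : ℕ, p.Prime → CharP K p → IsSepClosed K) := by
  obtain ⟨n, hn⟩ : ∃ n, NIPnField n K := by
    rcases hK with h | h
    · exact ⟨1, nip_one h⟩
    · exact h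
  have hhens : ∀ A : ValuationSubring K, A ≠ ⊤ → Dfb A → ∀ p : ℕ, p.Prime → CharP K p →
      HenselianLocalRing A := fun A hA hA' p hp _ => by
    have : Fact p.Prime := ⟨hp⟩
    exact NP_.hp_n K p (Pool.Agent.N616.NV.Pla_.infinite_of_ne_top hA) n hn A hA'
  constructor
  · rintro ⟨P, hult, hOP, D, hD⟩
    have hdef : DefTop P := by
      obtain ⟨U, ε, hU, hε, hU1, hU2⟩ :=
        (PlacesOfHigherDimension.result K (Or.inr (Or.inl ⟨n, hn⟩))).1 P D hult hD
      exact ⟨U, ε, hU, hε, hU1, hU2⟩
    have hsc : ¬ IsSepClosed P.F := fun h => hD (dimLe_of_sepClosed P.F h D)
    obtain ⟨O', hO', hO't, -⟩ := PO K P hult
    have hle : O ≤ O' := fun x hx => (hO' x).2 (hOP x hx)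
    rcases place_top K n hn P hult hdef hsc O' hO' hO't with ⟨A, hA, hA', C, hC, h1, h2⟩ |
      ⟨LO, SO, h1, h2, h3⟩
    · exact Or.inl ⟨A, C, hC, h1, hle.trans h2, hA', hhens A hA hA'⟩
    · exact Or.inr ⟨LO, SO, h1, h2, O', hO't, hle, h3⟩
  · intro hdef
    rcases valuation_top K n hn O hO hdef with ⟨A, hA, hA', C, hC, h1, h2⟩ | h | h
    · exact Or.inl (Or.inl ⟨A, C, hC, h1, h2, hA', hhens A hA hA'⟩)
    · exact Or.inl (Or.inr h)
    · refine Or.inr ⟨h, fun p hp _ => ?_⟩
      have : Fact p.Prime := ⟨hp⟩
      obtain ⟨A, hA, hle, hh⟩ := hens_of_topology K p n hn O hO hdef
      exact sepClosed_of_dense K A O hA hle hh h

end Pool.Agent.Results.MP_3554b5_lc.DefinableTopologies
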