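import Pool.Agent.T9h39.Ne10
import Pool.Agent.Results.MP_3554b5_lc.NonTameDefinable
import Pool.Agent.T9h43.NF.Main

/-!
# NIP fields: a definable valuation ring, a definable ordering, or dimension at most one

Let `K` be a field (a pure field, in the language of rings) which is NIP, or `NIP_n` for some `n`, of
any characteristic. One of the following holds:

(1) `K` has a nontrivial valuation ring which is definable with parameters; it is henselian if `K` has
positive characteristic;

(2) `K` is orderable, every ordering of `K` is definable with parameters, and `K` is dense in its real
closure for every ordering;

(3) for every field `K'` elementarily equivalent to `K`: every place of `K'` with values in a complete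
field `F` of rank one (archimedean or not) has dimension at most one; if its topology is definable
with parameters then `F` is separably closed; and every nontrivial valuation ring of `K'`, of any
rank, has a residue field of dimension at most one and is tame.

Here a field `F` has dimension at most one if the norm maps `L → M` are surjective, for all finite
separable extensions `M` of `F` and `L` of `M`. So if some `K'` has a place of dimension greater than
one, or a place with a definable topology whose complete field is not separably closed, or a
nontrivial valuation ring with a residue field of dimension greater than one, and `K` is not
orderable, then `K` has a nontrivial definable valuation ring. No valuation is assumed to be definable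
or henselian, and there is no hypothesis on roots of unity. For fields of positive characteristic (1)
or (3) holds.

Proof. Let `P` be a place of `K'` with values in `F`, nonarchimedean. If `F` has dimension greater than
one then the topology of `P` is definable by the starting result `PlacesOfHigherDimension`. Suppose
that the topology is definable, that `F` is not separably closed and that `K'` is not formally real.
Then there are a prime number `q`, different from the residue characteristic of `F`, and a finite
separable extension `E` of `F` in which not all elements are `q`-th powers; here we use the result
`CompletionsAndRings` if `F` has positive residue characteristic `p`: the degrees of the finite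
extensions of `F` are prime to `p` or `F` is discrete. If the residue characteristic is zero we can
have `-1` among the `q`-th powers of `E`, otherwise `F`, hence `K'`, would be formally real. The field
`E` is the completion of a finite extension `L` of `K'` and the closure `T` of the group of the `q`-th
powers of `L` for the topology of `E` is definable over `K'`. The valuation ring `A` of `L` given by
`E` is compatible with `T`, that is `1 + m_A ⊆ T`.

Now we work with the valuation rings of `L` which are compatible with `T` (Ware, Koenigsmann). If the
units of some valuation ring are all in `T` then an explicit formula in `T` defines a nontrivial
valuation ring. Otherwise any two compatible rings are comparable, by weak approximation; let `A` be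
the finest one, `k` its residue field and `c` a unit of `A` which is not in `T`. The set `U` of all `x`
with `1 + x` and `1 + x / c` in `T` contains `m_A` and is contained in `A`. Either `m_A` is defined by an
explicit formula in `U`, or a multiple of the image of `U` in `k` is closed under differences and
products, and it gives (as in Dürbaum's and Kowalsky's theorem) a quasi-norm and then an absolute
value `N` of `k` for which the image of `T` is open, since `k` has no compatible valuation ring. An
open subgroup of the multiplicative group of an archimedean field which contains `-1` is everything,
so `N` is nonarchimedean; and `N q < 1`, since otherwise Newton's method shows that the ring of `N` is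
compatible. If the residue characteristic of `A` is positive and prime to `q` this is impossible and
`A` is definable. In the other case, the completion `F'` of `k` has residue characteristic `q` and the
place of `L` with values in `F'` has the definable bounded neighbourhood `U`. The result
`CompletionsAndRings` (in the version for this place of `L`) says that the degrees of all finite
extensions of `F'` are prime to `q`, and then all elements of `F'` are `q`-th powers and `c` is in `T`, a
contradiction; or that `F'` is discrete, and then the closure of the group of the `r`-th powers, for a
prime number `r ≠ q`, is a definable proper subgroup of the first kind.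

Archimedean complete fields are isomorphic to the real or complex numbers by Ostrowski's theorem. A
field with a place with values in a formally real field is formally real, and this, and the existence
of a definable valuation ring, are properties of the theory of `K`. Non-tame valuation rings have
definable coarsenings by the starting result `NonTameDefinable`. (2) follows from
`DefinableOrderings` (library `T9h43/NF`), and the henselian property in (1) is Johnson's theorem (starting library
`N616/NH`, also for `NIP_n`).

The definable subgroups of finite extensions (`T9h43/TV/Root`, `Ext`, `Rel`, `Rel2`) were formalised by
helper43, the rest by helper39.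
-/

set_option autoImplicit false

namespace Pool.Agent.Results.MP_3554b5_lc.DefinableTrichotomy

open FirstOrder FirstOrder.Language FirstOrder.Ring Pool.Agent.W882.Nip3 Pool.Agent.N616.NH
open Pool.Agent.N616.NV Pool.Agent.T9h39.Nd Pool.Agent.T9h39.Ne

/-- Let `K` be a field which is NIP (the hypothesis of `S14569`), or `NIP_n` for some `n`. Definable
means: definable with parameters in the language of rings. One of the following holds.

(1) `K` has a definable valuation ring different from `K`; this ring is henselian if `K` has positive
characteristic.

(2) `K` has an ordering, and for every ordering of `K` the set of the nonnegative elements is
definable and `K` is dense in its real closure (in every real closed field which is an algebraic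
extension of `K`, with an ordering which extends that of `K`).

(3) For every field `K'` elementarily equivalent to `K`: every place `P` of `K'` with values in a
complete field `P.F` has dimension at most one, and if its topology is definable then `P.F` is
separably closed; every valuation ring of `K'` different from `K'` has a residue field of dimension
at most one and is tame. -/
theorem result (K : Type) [Field K] [CompatibleRing K]
    (hK : NIPField K ∨ ∃ n, NIPnField n K) :
    (∃ A : ValuationSubring K, A ≠ ⊤ ∧ Dfb A ∧
      ∀ p : ℕ, p.Prime → CharP K p → HenselianLocalRing A) ∨
    ((∃ (_ : LinearOrder K), IsStrictOrderedRing K) ∧
      ∀ [LinearOrder K] [IsStrictOrderedRing K], DfS {x : K | 0 ≤ x} ∧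
        ∀ (R : Type) [Field R] [LinearOrder R] [IsStrictOrderedRing R] [IsRealClosed R]
          [Algebra K R] [Algebra.IsAlgebraic K R], StrictMono (algebraMap K R) →
          ∀ a b : R, a < b → ∃ x : K, a < algebraMap K R x ∧ algebraMap K R x < b) ∨
    ∀ (K' : Type) [Field K'] [CompatibleRing K'],
      Language.ring.ElementarilyEquivalent K K' →
        (∀ P : Place K', (∀ D : ℕ, DimLeOneUpTo P.F D) ∧ (DefTop P → IsSepClosed P.F)) ∧
        ∀ O : ValuationSubring K', O ≠ ⊤ → ∀ D : ℕ,
          DimLeOneUpTo (IsLocalRing.ResidueField O) D ∧ ¬ NotTame D O := by
  obtain ⟨n, hn⟩ : ∃ n, NIPnField n K := by
    rcases hK with h | h
    · exact ⟨1, nip_one h⟩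
    · exact h
  by_cases h : ∃ A : ValuationSubring K, A ≠ ⊤ ∧ Dfb A
  · obtain ⟨A, hA, hA'⟩ := h
    refine Or.inl ⟨A, hA, hA', fun p hp hc => ?_⟩
    have : Fact p.Prime := ⟨hp⟩
    exact NP_.hp_n K p (Pool.Agent.N616.NV.Pla_.infinite_of_ne_top hA) n hn A hA'
  right
  by_cases hr : IsSumSq (-1 : K)
  · right
    intro K' _ _ he
    have hn' : NIPnField n K' := nipn_transfer he hn
    have h' : ¬ ∃ A : ValuationSubring K', A ≠ ⊤ ∧ Dfb A := fun h2 => h (transfer_dfb he h2)
    have hr' : IsSumSq (-1 : K') := by
      by_contra h2
      exact sumSq_transfer he h2 hr
    refine ⟨fun P => place_main K' n hn' h' hr' P, fun O hO D => ⟨?_, fun hT => ?_⟩⟩
    · by_contra hD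
      obtain ⟨P, D', hD'⟩ := place_of_res K' O hO D hD
      exact hD' ((place_main K' n hn' h' hr' P).1 D')
    · obtain ⟨A, -, hA1, -, hA2⟩ :=
        (NonTameDefinable.result K' (Or.inr (Or.inl ⟨n, hn'⟩))).1 D O hT
      exact h' ⟨A, hA1, hA2⟩
  · left
    refine ⟨exists_order K hr, fun {_ _} => ?_⟩
    obtain ⟨U, hU, hU1, hU2⟩ :=
      (PlacesOfHigherDimension.result K (Or.inr (Or.inl ⟨n, hn⟩))).2.1
    rcases Pool.Agent.T9h43.NF.dichotomy hU hU1 hU2 with ⟨A, hA, hA', -⟩ | h2
    · exact absurd ⟨A, hA, hA'⟩ h
    · exact h2

end Pool.Agent.Results.MP_3554b5_lc.DefinableTrichotomy
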